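import Mathlib
import Pool.Agent.H325.EN.Defs

/-! Project EN (helper325), EN4: commutators of terms of the lower central series. -/

set_option autoImplicit false

open scoped commutatorElement

namespace Pool.Agent.H105.EN

open Pool.Agent.H325.EN

universe u

theorem three {N : Type u} [Group N] (K H₁ H₂ H₃ : Subgroup N) [hK : K.Normal]
    (h1 : ⁅⁅H₂, H₃⁆, H₁⁆ ≤ K) (h2 : ⁅⁅H₃, H₁⁆, H₂⁆ ≤ K) : ⁅⁅H₁, H₂⁆, H₃⁆ ≤ K := by
  have key : ∀ A B C : Subgroup N, ⁅⁅A, B⁆, C⁆ ≤ K ↔
      ⁅⁅A.map (QuotientGroup.mk' K), B.map (QuotientGroup.mk' K)⁆, C.map (QuotientGroup.mk' K)⁆ = ⊥ := by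
    intro A B C
    rw [← Subgroup.map_commutator, ← Subgroup.map_commutator, Subgroup.map_eq_bot_iff,
      QuotientGroup.ker_mk']
  rw [key] at h1 h2 ⊢
  exact Subgroup.commutator_commutator_eq_bot_of_rotate h1 h2

theorem comm_le (N : Type u) [Group N] (j : ℕ) : ∀ i : ℕ,
    ⁅Subgroup.lowerCentralSeries (⊤ : Subgroup N) i, Subgroup.lowerCentralSeries (⊤ : Subgroup N) j⁆ ≤
      Subgroup.lowerCentralSeries (⊤ : Subgroup N) (i + j + 1) := by
  induction j with
  | zero =>
    intro i
    rw [Nat.add_zero, Subgroup.lowerCentralSeries_succ, Subgroup.lowerCentralSeries_zero]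
  | succ j ih =>
    intro i
    rw [Subgroup.lowerCentralSeries_succ (⊤ : Subgroup N) j, Subgroup.commutator_comm]
    apply three
    · rw [Subgroup.commutator_comm ⊤, ← Subgroup.lowerCentralSeries_succ]
      refine (ih (i + 1)).trans (le_of_eq ?_)
      congr 1
      omega
    · refine (Subgroup.commutator_mono (ih i) le_rfl).trans (le_of_eq ?_)
      rw [← Subgroup.lowerCentralSeries_succ]
      congr 1

theorem com' : S_COM.{u} := by
  intro N _ i j x y hx hy
  have h := comm_le N (j - 1) (i - 1) (Subgroup.commutator_mem_commutator hx hy)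
  exact Subgroup.lowerCentralSeries_antitone (⊤ : Subgroup N) (by omega : i + j - 1 ≤ i - 1 + (j - 1) + 1) h

theorem com : S_COM.{0} := com'

end Pool.Agent.H105.EN

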